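import Mathlib

/-!
A real 2x2 matrix satisfying condition (G) whose best approximation vectors (sup-norm on both
factors) all lie in a fixed plane, so that every tail of the sequence spans a plane.
-/

namespace Pool.Agent.Results.MP_a0fa86_nt.RankOneExample

open Real

/-- The real vector with the same coordinates as the integer vector `x`. -/
def toR (x : Fin 2 → ℤ) : Fin 2 → ℝ := fun i => (x i : ℝ)

/-- Condition (G): `Θ x` is never an integer vector for a nonzero integer vector `x`. -/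
def CondG (Θ : Matrix (Fin 2) (Fin 2) ℝ) : Prop :=
  ∀ x : Fin 2 → ℤ, x ≠ 0 → ∀ y : Fin 2 → ℤ, Θ.mulVec (toR x) ≠ toR y

/-- `z = (x, y)` is a best approximation vector: `x ≠ 0` and the only integer points in the box
`|x'| ≤ |x|`, `|Θ x' - y'| ≤ |Θ x - y|` (sup-norms) are `0` and `± z`. -/
def IsBest (Θ : Matrix (Fin 2) (Fin 2) ℝ) (z : (Fin 2 → ℤ) × (Fin 2 → ℤ)) : Prop :=
  z.1 ≠ 0 ∧ ∀ w : (Fin 2 → ℤ) × (Fin 2 → ℤ),
    ‖toR w.1‖ ≤ ‖toR z.1‖ →
    ‖Θ.mulVec (toR w.1) - toR w.2‖ ≤ ‖Θ.mulVec (toR z.1) - toR z.2‖ →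
    w = 0 ∨ w = z ∨ w = -z

/-- `z` lists the best approximation vectors, one from each pair `± z`, in order of increasing
`|x|`. -/
def IsListing (Θ : Matrix (Fin 2) (Fin 2) ℝ) (z : ℕ → (Fin 2 → ℤ) × (Fin 2 → ℤ)) : Prop :=
  (∀ ν, IsBest Θ (z ν)) ∧ StrictMono (fun ν => ‖toR (z ν).1‖) ∧
    ∀ w, IsBest Θ w → ∃ ν, w = z ν ∨ w = -z ν

/-- The tail span `span_ℝ {z_ν : ν ≥ ν₀}` inside `ℝ² × ℝ²`. -/
def tailSpan (z : ℕ → (Fin 2 → ℤ) × (Fin 2 → ℤ)) (ν₀ : ℕ) :
    Submodule ℝ ((Fin 2 → ℝ) × (Fin 2 → ℝ)) :=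
  Submodule.span ℝ {v | ∃ ν, ν₀ ≤ ν ∧ v = (toR (z ν).1, toR (z ν).2)}

/-- The number `1/√2`. -/
noncomputable def r : ℝ := √2 / 2

lemma r_sq : r * r = 1 / 2 := by
  unfold r
  have : √2 * √2 = 2 := Real.mul_self_sqrt (by norm_num)
  nlinarith

lemma r_pos : 0 < r := by unfold r; positivity

lemma r_lt : r < 3 / 4 := by
  have := r_sq; have := r_pos
  nlinarith

lemma r_gt : 2 / 3 < r := by
  have := r_sq; have := r_pos
  nlinarith

lemma irr_aux (a b : ℤ) (h : (a : ℝ) + r * b = 0) : a = 0 ∧ b = 0 := by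
  have hb : b = 0 := by
    by_contra hb
    have hirr : Irrational √2 := irrational_sqrt_two
    apply hirr
    refine ⟨-2 * a / b, ?_⟩
    have hb' : (b : ℝ) ≠ 0 := by exact_mod_cast hb
    push_cast
    unfold r at h
    field_simp
    linarith
  subst hb
  simp at h
  exact ⟨h, rfl⟩

/-- The linear form `x ↦ x₁ + x₂/√2`. -/
noncomputable def s (x : Fin 2 → ℤ) : ℝ := (x 0 : ℝ) + r * (x 1 : ℝ)

lemma s_eq_zero {x : Fin 2 → ℤ} (h : s x = 0) : x = 0 := by
  obtain ⟨h0, h1⟩ := irr_aux _ _ h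
  funext i
  fin_cases i <;> simp [h0, h1]

/-- The matrix `(1/10) (1, r)ᵀ (1, r)`. -/
noncomputable def Θ₀ : Matrix (Fin 2) (Fin 2) ℝ := !![1 / 10, r / 10; r / 10, 1 / 20]

lemma mulVec_zero' (x : Fin 2 → ℤ) : Θ₀.mulVec (toR x) 0 = s x / 10 := by
  simp [Θ₀, Matrix.mulVec, dotProduct, Fin.sum_univ_two, toR, s]
  ring

lemma mulVec_one' (x : Fin 2 → ℤ) : Θ₀.mulVec (toR x) 1 = r * s x / 10 := by
  simp [Θ₀, Matrix.mulVec, dotProduct, Fin.sum_univ_two, toR, s]
  have := r_sq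
  linear_combination (- (x 1 : ℝ) / 10) * this

lemma norm_toR_le {x : Fin 2 → ℤ} {M : ℝ} (hM : 0 ≤ M) :
    ‖toR x‖ ≤ M ↔ |(x 0 : ℝ)| ≤ M ∧ |(x 1 : ℝ)| ≤ M := by
  rw [pi_norm_le_iff_of_nonneg hM]
  simp [Fin.forall_fin_two, toR, Real.norm_eq_abs]

lemma norm_vec_le {v : Fin 2 → ℝ} {M : ℝ} (hM : 0 ≤ M) :
    ‖v‖ ≤ M ↔ |v 0| ≤ M ∧ |v 1| ≤ M := by
  rw [pi_norm_le_iff_of_nonneg hM]
  simp [Fin.forall_fin_two, Real.norm_eq_abs]

/-- The error of `(x, 0)`. -/
lemma err_zero (x : Fin 2 → ℤ) : ‖Θ₀.mulVec (toR x) - toR 0‖ = |s x| / 10 := by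
  have hr := r_pos
  have hr1 := r_lt
  apply le_antisymm
  · rw [norm_vec_le (by positivity)]
    simp only [Pi.sub_apply, mulVec_zero', mulVec_one', toR, Pi.zero_apply, Int.cast_zero, sub_zero]
    constructor
    · rw [abs_div, abs_of_pos (by norm_num : (0:ℝ) < 10)]
    · rw [abs_div, abs_mul, abs_of_pos (by norm_num : (0:ℝ) < 10), abs_of_pos hr]
      have := abs_nonneg (s x)
      apply div_le_div_of_nonneg_right _ (by norm_num)
      nlinarith
  · have := norm_le_pi_norm (Θ₀.mulVec (toR x) - toR 0) 0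
    simp only [Pi.sub_apply, mulVec_zero', toR, Pi.zero_apply, Int.cast_zero, sub_zero,
      Real.norm_eq_abs, abs_div] at this
    rwa [abs_of_pos (by norm_num : (0:ℝ) < 10)] at this

/-- `1/√2` is badly approximable. -/
lemma bad (a b : ℤ) (ha : a ≠ 0) (h1 : |r * a - b| ≤ 1) : 1 / 6 ≤ |(a : ℝ)| * |r * a - b| := by
  have hr := r_pos
  have hr1 := r_lt
  have ha1 : (1 : ℝ) ≤ |(a : ℝ)| := by
    rw [← Int.cast_abs]; exact_mod_cast Int.one_le_abs ha
  have hN : (1 : ℝ) ≤ |(a : ℝ) ^ 2 - 2 * (b : ℝ) ^ 2| := by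
    have : a ^ 2 - 2 * b ^ 2 ≠ 0 := by
      intro h0
      have h2 : ((a : ℝ) + r * ((-2 * b : ℤ) : ℝ)) * ((a : ℝ) + r * ((2 * b : ℤ) : ℝ)) = 0 := by
        have h0' : (a : ℝ) ^ 2 - 2 * (b : ℝ) ^ 2 = 0 := by exact_mod_cast h0
        push_cast
        have := r_sq
        linear_combination h0' - 4 * (b:ℝ)^2 * this
      rcases mul_eq_zero.1 h2 with h | h
      · exact ha (irr_aux _ _ h).1
      · exact ha (irr_aux _ _ h).1
    have h3 : (1 : ℤ) ≤ |a ^ 2 - 2 * b ^ 2| := Int.one_le_abs this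
    have h4 : ((1 : ℤ) : ℝ) ≤ ((|a ^ 2 - 2 * b ^ 2| : ℤ) : ℝ) := by exact_mod_cast h3
    rw [Int.cast_abs] at h4
    push_cast at h4
    exact h4
  have hprod : (a : ℝ) ^ 2 - 2 * (b : ℝ) ^ 2 = 2 * ((r * a - b) * (r * a + b)) := by
    have := r_sq
    linear_combination (- 2 * (a:ℝ)^2) * this
  rw [hprod, abs_mul, abs_mul] at hN
  have h5 : |r * a + b| ≤ 3 * |(a : ℝ)| := by
    have : r * a + b = 2 * (r * a) - (r * a - b) := by ring
    rw [this]
    have h6 : |2 * (r * a)| = 2 * (r * |(a:ℝ)|) := by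
      rw [abs_mul, abs_mul, abs_of_pos hr]; norm_num
    calc |2 * (r * a) - (r * a - b)| ≤ |2 * (r * a)| + |r * a - b| := abs_sub _ _
      _ ≤ 2 * (r * |(a:ℝ)|) + 1 := by rw [h6]; linarith
      _ ≤ 3 * |(a:ℝ)| := by nlinarith
  have h7 := abs_nonneg (r * a - b)
  rw [abs_of_pos (by norm_num : (0:ℝ) < 2)] at hN
  nlinarith

/-- Points with a small error have `y = 0`. -/
lemma y_zero {x y : Fin 2 → ℤ} {M : ℝ} (hM : 1 ≤ M) (hx : ‖toR x‖ ≤ M)
    (he : ‖Θ₀.mulVec (toR x) - toR y‖ ≤ 1 / (10 * (M + 1))) : y = 0 := by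
  have hr := r_pos
  have hr1 := r_lt
  have hM0 : 0 < M := by linarith
  rw [norm_toR_le hM0.le] at hx
  have hpos : 0 < 1 / (10 * (M + 1)) := by positivity
  rw [norm_vec_le hpos.le] at he
  simp only [Pi.sub_apply, mulVec_zero', mulVec_one', toR] at he
  obtain ⟨he0, he1⟩ := he
  have hs : |s x| ≤ 2 * M := by
    unfold s
    calc |(x 0 : ℝ) + r * (x 1 : ℝ)| ≤ |(x 0 : ℝ)| + |r * (x 1 : ℝ)| := abs_add_le _ _
      _ ≤ M + M := by
          rw [abs_mul, abs_of_pos hr]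
          have := abs_nonneg (x 1 : ℝ)
          nlinarith [hx.1, hx.2]
      _ = 2 * M := by ring
  have hE : 1 / (10 * (M + 1)) ≤ 1 / 20 := by
    apply one_div_le_one_div_of_le (by norm_num); linarith
  have hform : |r * (y 0) - (y 1)| ≤ 2 * (1 / (10 * (M + 1))) := by
    have : r * (y 0 : ℝ) - (y 1) = -r * (s x / 10 - y 0) + (r * s x / 10 - y 1) := by ring
    rw [this]
    calc |-r * (s x / 10 - y 0) + (r * s x / 10 - y 1)|
        ≤ |-r * (s x / 10 - y 0)| + |r * s x / 10 - y 1| := abs_add_le _ _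
      _ ≤ 1 / (10 * (M + 1)) + 1 / (10 * (M + 1)) := by
          rw [abs_mul, abs_neg, abs_of_pos hr]
          have := abs_nonneg (s x / 10 - y 0)
          have h3 : r * |s x / 10 - (y 0 : ℝ)| ≤ 1 * |s x / 10 - (y 0 : ℝ)| :=
            mul_le_mul_of_nonneg_right (by linarith) this
          linarith
      _ = _ := by ring
  have hy0 : y 0 = 0 := by
    by_contra hne
    have hb := bad (y 0) (y 1) hne (by linarith)
    have hy0 : |(y 0 : ℝ)| ≤ M / 5 + 1 / 20 := by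
      have : (y 0 : ℝ) = s x / 10 - (s x / 10 - y 0) := by ring
      rw [this]
      calc |s x / 10 - (s x / 10 - y 0)| ≤ |s x / 10| + |s x / 10 - y 0| := abs_sub _ _
        _ ≤ M / 5 + 1 / 20 := by
            rw [abs_div, abs_of_pos (by norm_num : (0:ℝ) < 10)]
            linarith
    have h8 : |(y 0 : ℝ)| * |r * (y 0) - (y 1)| ≤ (M / 5 + 1 / 20) * (2 * (1 / (10 * (M + 1)))) :=
      mul_le_mul hy0 hform (abs_nonneg _) (by positivity)
    have h9 : (M / 5 + 1 / 20) * (2 * (1 / (10 * (M + 1)))) < 1 / 6 := by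
      rw [mul_one_div, ← mul_div_assoc, div_lt_div_iff₀ (by positivity) (by norm_num)]
      nlinarith
    linarith
  have hy1 : y 1 = 0 := by
    rw [hy0] at hform
    simp at hform
    have h10 : |(y 1 : ℝ)| < 1 := by
      have : 2 * (1 / (10 * (M + 1))) < 1 := by linarith
      have h11 : 2 * ((M + 1)⁻¹ * 10⁻¹) = 2 * (1 / (10 * (M + 1))) := by
        field_simp
      linarith
    rw [← Int.cast_abs] at h10
    have h12 : |y 1| < 1 := by exact_mod_cast h10
    exact Int.abs_lt_one_iff.1 h12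
  funext i
  fin_cases i
  · exact hy0
  · exact hy1

/-- Dirichlet's theorem for the form `s`. -/
lemma dirichlet (M : ℕ) (hM : 1 ≤ M) :
    ∃ x : Fin 2 → ℤ, x ≠ 0 ∧ ‖toR x‖ ≤ M ∧ |s x| ≤ 1 / (M + 1) := by
  obtain ⟨j, k, hk0, hkM, hk⟩ := Real.exists_int_int_abs_mul_sub_le r (n := M) (by omega)
  have hr := r_pos
  have hr1 := r_lt
  refine ⟨![-j, k], ?_, ?_, ?_⟩
  · intro h
    have := congrFun h 1
    simp at this
    omega
  · rw [norm_toR_le (by positivity)]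
    have hk0' : (1 : ℝ) ≤ k := by exact_mod_cast hk0
    have hkM' : (k : ℝ) ≤ M := by exact_mod_cast hkM
    have hM1 : (1:ℝ) ≤ M := by exact_mod_cast hM
    have hle1 : 1 / ((M : ℝ) + 1) ≤ 1 / 2 := one_div_le_one_div_of_le (by norm_num) (by linarith)
    have habs := abs_le.1 hk
    constructor
    · simp only [Matrix.cons_val_zero, Int.cast_neg, abs_neg]
      have hj1 : (j : ℝ) < k + 1 := by nlinarith
      have hj2 : (-1 : ℝ) < j := by nlinarith
      have hj1' : j < k + 1 := by exact_mod_cast hj1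
      have hj2' : -1 < j := by exact_mod_cast hj2
      rw [abs_of_nonneg (by exact_mod_cast (by omega : 0 ≤ j))]
      have : (j : ℝ) ≤ k := by exact_mod_cast (by omega : j ≤ k)
      linarith
    · simp only [Matrix.cons_val_one, Matrix.cons_val_fin_one]
      rw [abs_of_nonneg (by linarith)]
      exact hkM'
  · have : s ![-j, k] = k * r - j := by
      simp [s]; ring
    rw [this]
    have := hk
    simpa using this

lemma condG : CondG Θ₀ := by
  intro x hx y h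
  have h0 := congrFun h 0
  have h1 := congrFun h 1
  rw [mulVec_zero'] at h0
  rw [mulVec_one'] at h1
  simp only [toR] at h0 h1
  have h2 : ((-y 1 : ℤ) : ℝ) + r * ((y 0 : ℤ) : ℝ) = 0 := by
    push_cast
    rw [← h0, ← h1]; ring
  obtain ⟨-, h3⟩ := irr_aux _ _ h2
  rw [h3] at h0
  simp at h0
  exact hx (s_eq_zero h0)

lemma norm_toR_eq_nat (x : Fin 2 → ℤ) : ∃ n : ℕ, ‖toR x‖ = n := by
  refine ⟨max (x 0).natAbs (x 1).natAbs, ?_⟩
  apply le_antisymm
  · rw [norm_toR_le (by positivity)]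
    push_cast [Nat.cast_natAbs]
    exact ⟨le_max_left _ _, le_max_right _ _⟩
  · push_cast [Nat.cast_natAbs]
    apply max_le
    · have := norm_le_pi_norm (toR x) 0
      simpa [toR] using this
    · have := norm_le_pi_norm (toR x) 1
      simpa [toR] using this

lemma one_le_norm {x : Fin 2 → ℤ} (hx : x ≠ 0) : 1 ≤ ‖toR x‖ := by
  obtain ⟨n, hn⟩ := norm_toR_eq_nat x
  rw [hn]
  have : n ≠ 0 := by
    rintro rfl
    apply hx
    have h := (norm_toR_le (x := x) (le_refl (0:ℝ))).1 (by rw [hn]; simp)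
    funext i
    fin_cases i
    · simpa using h.1
    · simpa using h.2
  exact_mod_cast Nat.one_le_iff_ne_zero.2 this

lemma finite_ball (M : ℕ) : {x : Fin 2 → ℤ | ‖toR x‖ ≤ M}.Finite := by
  apply (Set.finite_Icc (fun _ => -(M : ℤ)) (fun _ => (M : ℤ))).subset
  intro x hx
  have h := (norm_toR_le (by positivity)).1 hx
  rw [abs_le, abs_le] at h
  constructor
  · intro i
    fin_cases i
    · exact_mod_cast h.1.1
    · exact_mod_cast h.2.1
  · intro i
    fin_cases i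
    · exact_mod_cast h.1.2
    · exact_mod_cast h.2.2

/-- Every best approximation vector has `y = 0`. -/
lemma best_y {z : (Fin 2 → ℤ) × (Fin 2 → ℤ)} (hz : IsBest Θ₀ z) : z.2 = 0 := by
  obtain ⟨n, hn⟩ := norm_toR_eq_nat z.1
  have h1 : (1 : ℝ) ≤ n := hn ▸ one_le_norm hz.1
  have h1' : 1 ≤ n := by exact_mod_cast h1
  obtain ⟨x, hx0, hxn, hxs⟩ := dirichlet n h1'
  by_cases hle : ‖Θ₀.mulVec (toR x) - toR 0‖ ≤ ‖Θ₀.mulVec (toR z.1) - toR z.2‖
  · rcases hz.2 (x, 0) (by rw [hn]; exact hxn) hle with h | h | h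
    · exact absurd (congrArg Prod.fst h) hx0
    · exact (congrArg Prod.snd h).symm
    · have := congrArg Prod.snd h
      simp at this
      exact this
  · push Not at hle
    rw [err_zero] at hle
    apply y_zero (M := n) h1 hn.le
    have : |s x| / 10 ≤ 1 / (10 * ((n:ℝ) + 1)) := by
      rw [div_le_iff₀ (by norm_num)]
      calc |s x| ≤ 1 / ((n:ℝ) + 1) := hxs
        _ = _ := by field_simp
    linarith

/-- There are best approximation vectors of arbitrarily large norm. -/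
lemma exists_best (T : ℕ) : ∃ z : (Fin 2 → ℤ) × (Fin 2 → ℤ), IsBest Θ₀ z ∧ (T : ℝ) < ‖toR z.1‖ := by
  -- a positive lower bound for `|s|` on the ball of radius `T`
  obtain ⟨η, hη0, hη⟩ : ∃ η : ℝ, 0 < η ∧ ∀ x : Fin 2 → ℤ, x ≠ 0 → ‖toR x‖ ≤ T → η ≤ |s x| := by
    have hfin : {x : Fin 2 → ℤ | ‖toR x‖ ≤ T ∧ x ≠ 0}.Finite :=
      (finite_ball T).subset (fun x hx => hx.1)
    by_cases hne : {x : Fin 2 → ℤ | ‖toR x‖ ≤ T ∧ x ≠ 0}.Nonempty
    · obtain ⟨x₀, hx₀, hmin⟩ := Set.exists_min_image _ (fun x => |s x|) hfin hne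
      refine ⟨|s x₀|, abs_pos.2 (fun h => hx₀.2 (s_eq_zero h)), fun x hx hxT => hmin x ⟨hxT, hx⟩⟩
    · refine ⟨1, one_pos, fun x hx hxT => absurd ⟨x, hxT, hx⟩ hne⟩
  have hex : ∃ M : ℕ, ∃ x : Fin 2 → ℤ, x ≠ 0 ∧ ‖toR x‖ ≤ M ∧ |s x| < η := by
    obtain ⟨n, hn⟩ := exists_nat_gt (1 / η)
    have hpos : 0 < 1 / η := by positivity
    have hn0 : 0 < (n : ℝ) := by linarith
    have hn1 : 1 ≤ n := by exact_mod_cast hn0
    obtain ⟨x, hx0, hxn, hxs⟩ := dirichlet n hn1
    refine ⟨n, x, hx0, hxn, lt_of_le_of_lt hxs ?_⟩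
    rw [div_lt_iff₀ (by positivity)]
    rw [div_lt_iff₀ hη0] at hn
    nlinarith
  classical
  let M := Nat.find hex
  obtain ⟨x₁, hx₁0, hx₁M, hx₁η⟩ := Nat.find_spec hex
  have hfinM : {x : Fin 2 → ℤ | ‖toR x‖ ≤ M ∧ x ≠ 0}.Finite :=
    (finite_ball M).subset (fun x hx => hx.1)
  obtain ⟨x, hx, hmin⟩ := Set.exists_min_image _ (fun x => |s x|) hfinM ⟨x₁, hx₁M, hx₁0⟩
  have hxη : |s x| < η := lt_of_le_of_lt (hmin x₁ ⟨hx₁M, hx₁0⟩) hx₁η
  obtain ⟨n, hn⟩ := norm_toR_eq_nat x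
  have hnM : n = M := by
    apply le_antisymm
    · have := hx.1
      rw [hn] at this
      exact_mod_cast this
    · exact Nat.find_min' hex ⟨x, hx.2, hn.le, hxη⟩
  have hM1 : 1 ≤ M := by
    have := one_le_norm hx.2
    rw [hn, hnM] at this
    exact_mod_cast this
  refine ⟨(x, 0), ⟨hx.2, ?_⟩, ?_⟩
  · intro w hw1 hw2
    rw [err_zero] at hw2
    obtain ⟨xd, hxd0, hxdM, hxds⟩ := dirichlet M hM1
    have h1 : |s x| ≤ 1 / ((M : ℝ) + 1) := (hmin xd ⟨hxdM, hxd0⟩).trans hxds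
    have hwM : ‖toR w.1‖ ≤ M := by rw [← hnM, ← hn]; exact hw1
    have hw20 : w.2 = 0 := by
      apply y_zero (M := M) (by exact_mod_cast hM1) hwM
      refine hw2.trans ?_
      rw [div_le_iff₀ (by norm_num)]
      calc |s x| ≤ 1 / ((M:ℝ) + 1) := h1
        _ = _ := by field_simp
    rw [hw20, err_zero] at hw2
    by_cases hw0 : w.1 = 0
    · left
      exact Prod.ext hw0 hw20
    · right
      have h2 : |s x| ≤ |s w.1| := hmin w.1 ⟨hwM, hw0⟩
      have h3 : |s w.1| = |s x| := by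
        linarith
      rcases abs_eq_abs.1 h3 with h | h
      · left
        refine Prod.ext ?_ hw20
        have : s (w.1 - x) = 0 := by
          simp only [s, Pi.sub_apply, Int.cast_sub] at h ⊢
          linarith
        exact sub_eq_zero.1 (s_eq_zero this)
      · right
        refine Prod.ext ?_ (by simp [hw20])
        have : s (w.1 + x) = 0 := by
          simp only [s, Pi.add_apply, Int.cast_add] at h ⊢
          linarith
        exact eq_neg_of_add_eq_zero_left (s_eq_zero this)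
  · simp only
    by_contra hcon
    push Not at hcon
    exact absurd (hη x hx.2 hcon) (not_le.2 hxη)

/-- Two best approximation vectors with the same norm agree up to sign. -/
lemma best_unique {Θ : Matrix (Fin 2) (Fin 2) ℝ} {z w : (Fin 2 → ℤ) × (Fin 2 → ℤ)}
    (hz : IsBest Θ z) (hw : IsBest Θ w) (h : ‖toR z.1‖ = ‖toR w.1‖) : w = z ∨ w = -z := by
  rcases le_total ‖Θ.mulVec (toR w.1) - toR w.2‖ ‖Θ.mulVec (toR z.1) - toR z.2‖ with hle | hle
  · rcases hz.2 w h.ge hle with h1 | h1 | h1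
    · exact absurd (congrArg Prod.fst h1) hw.1
    · exact Or.inl h1
    · exact Or.inr h1
  · rcases hw.2 z h.le hle with h1 | h1 | h1
    · exact absurd (congrArg Prod.fst h1) hz.1
    · exact Or.inl h1.symm
    · right; rw [h1, neg_neg]

lemma exists_listing : ∃ z, IsListing Θ₀ z := by
  classical
  let P : ℕ → Prop := fun n => ∃ z, IsBest Θ₀ z ∧ ‖toR z.1‖ = n
  have hinf : {n | P n}.Infinite := by
    rw [Set.infinite_iff_exists_gt]
    intro T
    obtain ⟨z, hz, hT⟩ := exists_best T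
    obtain ⟨n, hn⟩ := norm_toR_eq_nat z.1
    refine ⟨n, ⟨z, hz, hn⟩, ?_⟩
    rw [hn] at hT
    exact_mod_cast hT
  have hmem : ∀ ν, P (Nat.nth P ν) := fun ν => Nat.nth_mem_of_infinite hinf ν
  choose z hz hzn using hmem
  refine ⟨z, hz, ?_, ?_⟩
  · intro a b hab
    simp only [hzn]
    exact_mod_cast Nat.nth_strictMono hinf hab
  · intro w hw
    obtain ⟨n, hn⟩ := norm_toR_eq_nat w.1
    have hPn : P n := ⟨w, hw, hn⟩
    have : n ∈ Set.range (Nat.nth P) := by
      rw [Nat.range_nth_of_infinite hinf]; exact hPn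
    obtain ⟨ν, hν⟩ := this
    refine ⟨ν, best_unique (hz ν) hw ?_⟩
    rw [hzn, hn, hν]

lemma best_indep {z w : (Fin 2 → ℤ) × (Fin 2 → ℤ)} (hz : IsBest Θ₀ z) (hw : IsBest Θ₀ w)
    (h : ‖toR z.1‖ < ‖toR w.1‖) :
    z.1 0 * w.1 1 - z.1 1 * w.1 0 ≠ 0 := by
  intro h0
  -- a best approximation vector is primitive
  have hs : s z.1 ≠ 0 := fun hs => hz.1 (s_eq_zero hs)
  have hsw : s w.1 ≠ 0 := fun hs => hw.1 (s_eq_zero hs)
  have hzy := best_y hz
  have hwy := best_y hw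
  -- `g` is a common primitive vector
  have key : ∀ v : (Fin 2 → ℤ) × (Fin 2 → ℤ), IsBest Θ₀ v → IsCoprime (v.1 0) (v.1 1) := by
    intro v hv
    have hvy := best_y hv
    rw [Int.isCoprime_iff_gcd_eq_one]
    by_contra hg
    set g : ℤ := (Int.gcd (v.1 0) (v.1 1) : ℤ) with hgdef
    have hg0 : 0 ≤ g := by positivity
    have hgne : g ≠ 0 := by
      intro hg00
      have : Int.gcd (v.1 0) (v.1 1) = 0 := by
        rw [hgdef] at hg00; exact_mod_cast hg00
      rw [Int.gcd_eq_zero_iff] at this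
      apply hv.1
      funext i
      fin_cases i
      · exact this.1
      · exact this.2
    have hg1 : g ≠ 1 := by
      intro h1
      apply hg
      rw [hgdef] at h1; exact_mod_cast h1
    have hg2 : 2 ≤ g := by omega
    obtain ⟨a, ha⟩ : g ∣ v.1 0 := Int.gcd_dvd_left _ _
    obtain ⟨b, hb⟩ : g ∣ v.1 1 := Int.gcd_dvd_right _ _
    have hgR : (2 : ℝ) ≤ g := by exact_mod_cast hg2
    have hsv : s v.1 = g * s ![a, b] := by
      simp [s, ha, hb]; ring
    have hsne : s ![a, b] ≠ 0 := by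
      intro h0
      rw [h0, mul_zero] at hsv
      exact hv.1 (s_eq_zero hsv)
    have hlt : |s ![a, b]| < |s v.1| := by
      rw [hsv, abs_mul, abs_of_pos (by linarith : (0:ℝ) < g)]
      have := abs_pos.2 hsne
      nlinarith
    have hnorm : ‖toR ![a, b]‖ ≤ ‖toR v.1‖ := by
      rw [norm_toR_le (norm_nonneg _)]
      have h1 : |(v.1 0 : ℝ)| ≤ ‖toR v.1‖ := by
        simpa [toR] using norm_le_pi_norm (toR v.1) 0
      have h2 : |(v.1 1 : ℝ)| ≤ ‖toR v.1‖ := by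
        simpa [toR] using norm_le_pi_norm (toR v.1) 1
      rw [ha] at h1
      rw [hb] at h2
      push_cast at h1 h2
      rw [abs_mul, abs_of_pos (by linarith : (0:ℝ) < g)] at h1 h2
      simp only [Matrix.cons_val_zero, Matrix.cons_val_one, Matrix.cons_val_fin_one]
      have := abs_nonneg (a : ℝ)
      have := abs_nonneg (b : ℝ)
      constructor <;> nlinarith
    have := hv.2 (![a, b], 0) hnorm (by
      rw [hvy, err_zero, err_zero]
      simp only
      linarith)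
    rcases this with h1 | h1 | h1
    · have h2 := congrArg Prod.fst h1
      simp only [Prod.fst_zero] at h2
      rw [h2] at hsne
      simp [s] at hsne
    · have h2 := congrArg Prod.fst h1
      simp only at h2
      rw [h2] at hlt
      exact lt_irrefl _ hlt
    · have h2 := congrArg Prod.fst h1
      simp only [Prod.fst_neg] at h2
      have h3 : s ![a, b] = - s v.1 := by
        rw [h2]; simp [s]; ring
      rw [h3, abs_neg] at hlt
      exact lt_irrefl _ hlt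
  have hcz := key z hz
  have hcw := key w hw
  have h1 : z.1 0 * w.1 1 = z.1 1 * w.1 0 := by linarith
  have hd0 : z.1 0 ∣ w.1 0 := hcz.dvd_of_dvd_mul_left (by rw [← h1]; exact dvd_mul_right _ _)
  have hd1 : w.1 0 ∣ z.1 0 := by
    have : w.1 0 ∣ z.1 0 * w.1 1 := by rw [h1]; exact dvd_mul_left _ _
    exact hcw.dvd_of_dvd_mul_right this
  have hd2 : z.1 1 ∣ w.1 1 := by
    have : z.1 1 ∣ z.1 0 * w.1 1 := by rw [h1]; exact dvd_mul_right _ _
    exact hcz.symm.dvd_of_dvd_mul_left this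
  have hd3 : w.1 1 ∣ z.1 1 := by
    have : w.1 1 ∣ z.1 1 * w.1 0 := by rw [← h1]; exact dvd_mul_left _ _
    exact hcw.symm.dvd_of_dvd_mul_right this
  have e0 : |(z.1 0)| = |(w.1 0)| := by
    rw [abs_eq_abs]
    exact Int.associated_iff.1 (associated_of_dvd_dvd hd0 hd1)
  have e1 : |(z.1 1)| = |(w.1 1)| := by
    rw [abs_eq_abs]
    exact Int.associated_iff.1 (associated_of_dvd_dvd hd2 hd3)
  have : ‖toR w.1‖ ≤ ‖toR z.1‖ := by
    rw [norm_toR_le (norm_nonneg _)]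
    have h1 : |(z.1 0 : ℝ)| ≤ ‖toR z.1‖ := by
      simpa [toR] using norm_le_pi_norm (toR z.1) 0
    have h2 : |(z.1 1 : ℝ)| ≤ ‖toR z.1‖ := by
      simpa [toR] using norm_le_pi_norm (toR z.1) 1
    rw [← Int.cast_abs] at h1 h2 ⊢
    rw [← Int.cast_abs, ← e0, ← e1]
    exact ⟨h1, h2⟩
  linarith

lemma finrank_tail {z : ℕ → (Fin 2 → ℤ) × (Fin 2 → ℤ)} (hz : IsListing Θ₀ z) (ν₀ : ℕ) :
    Module.finrank ℝ (tailSpan z ν₀) = 2 := by
  apply le_antisymm
  · have hle : tailSpan z ν₀ ≤ LinearMap.range (LinearMap.inl ℝ (Fin 2 → ℝ) (Fin 2 → ℝ)) := by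
      unfold tailSpan
      rw [Submodule.span_le]
      rintro v ⟨ν, -, rfl⟩
      refine ⟨toR (z ν).1, ?_⟩
      have : (z ν).2 = 0 := best_y (hz.1 ν)
      rw [this]
      ext i <;> simp [toR]
    refine (Submodule.finrank_mono hle).trans ?_
    refine (LinearMap.finrank_range_le _).trans ?_
    simp
  · have hlt : ‖toR (z ν₀).1‖ < ‖toR (z (ν₀ + 1)).1‖ := hz.2.1 (Nat.lt_succ_self ν₀)
    have hdet := best_indep (hz.1 ν₀) (hz.1 (ν₀ + 1)) hlt
    have hdetR : ((z ν₀).1 0 : ℝ) * ((z (ν₀+1)).1 1 : ℝ) - ((z ν₀).1 1 : ℝ) * ((z (ν₀+1)).1 0 : ℝ) ≠ 0 := by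
      exact_mod_cast hdet
    have m0 : ((toR (z ν₀).1, toR (z ν₀).2) : (Fin 2 → ℝ) × (Fin 2 → ℝ)) ∈ tailSpan z ν₀ :=
      Submodule.subset_span ⟨ν₀, le_refl _, rfl⟩
    have m1 : ((toR (z (ν₀+1)).1, toR (z (ν₀+1)).2) : (Fin 2 → ℝ) × (Fin 2 → ℝ)) ∈ tailSpan z ν₀ :=
      Submodule.subset_span ⟨ν₀ + 1, Nat.le_succ _, rfl⟩
    have hli : LinearIndependent ℝ
        ![(⟨_, m0⟩ : tailSpan z ν₀), (⟨_, m1⟩ : tailSpan z ν₀)] := by
      rw [LinearIndependent.pair_iff]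
      intro a b hab
      have h1 := congrArg (fun v : tailSpan z ν₀ => (v : (Fin 2 → ℝ) × (Fin 2 → ℝ)).1) hab
      have h00 := congrFun h1 0
      have h11 := congrFun h1 1
      simp [toR] at h00 h11
      constructor
      · have : a * (((z ν₀).1 0 : ℝ) * ((z (ν₀+1)).1 1 : ℝ) - ((z ν₀).1 1 : ℝ) * ((z (ν₀+1)).1 0 : ℝ)) = 0 := by
          linear_combination ((z (ν₀+1)).1 1 : ℝ) * h00 - ((z (ν₀+1)).1 0 : ℝ) * h11
        exact (mul_eq_zero.1 this).resolve_right hdetR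
      · have : b * (((z ν₀).1 0 : ℝ) * ((z (ν₀+1)).1 1 : ℝ) - ((z ν₀).1 1 : ℝ) * ((z (ν₀+1)).1 0 : ℝ)) = 0 := by
          linear_combination - ((z ν₀).1 1 : ℝ) * h00 + ((z ν₀).1 0 : ℝ) * h11
        exact (mul_eq_zero.1 this).resolve_right hdetR
    have := hli.fintype_card_le_finrank
    simpa using this

/-- There is a real `2 × 2` matrix satisfying (G) whose best approximation vectors can be listed,
and for every listing of them every tail spans a plane. -/
theorem result : ∃ Θ : Matrix (Fin 2) (Fin 2) ℝ, CondG Θ ∧ (∃ z, IsListing Θ z) ∧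
    ∀ z, IsListing Θ z → ∀ ν₀ : ℕ, Module.finrank ℝ (tailSpan z ν₀) = 2 :=
  ⟨Θ₀, condG, exists_listing, fun _ hz ν₀ => finrank_tail hz ν₀⟩

end Pool.Agent.Results.MP_a0fa86_nt.RankOneExample
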